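import Mathlib
import Pool.Agent.Helper495_ND.Up
import Pool.Agent.Helper495_ND.Low2
set_option autoImplicit false

/-!
The normal defect of a cyclic weighted shift and of its truncated extension: the inequality
`nd(Ã) ≤ nd(A) + 1` for a family of weights.
-/

namespace Pool.Agent.Results.MP_1a1084_an.FactoredWeights

open Matrix

/-- `M` has a normal completion of size `m + k`: a normal matrix of size `m + k` whose leading
principal `m × m` submatrix is `M`. -/
def HasNC {m : ℕ} (M : Matrix (Fin m) (Fin m) ℂ) (k : ℕ) : Prop :=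
  ∃ N : Matrix (Fin (m + k)) (Fin (m + k)) ℂ, N * Nᴴ = Nᴴ * N ∧
    ∀ i j : Fin m, N (Fin.castAdd k i) (Fin.castAdd k j) = M i j

/-- The normal defect: the least `k` such that `M` has a normal completion of size `m + k`. -/
noncomputable def nd {m : ℕ} (M : Matrix (Fin m) (Fin m) ℂ) : ℕ := sInf {k | HasNC M k}

/-- The cyclic weighted shift `A` (`i + 1` is addition modulo `n`). -/
def cyc {n : ℕ} [NeZero n] (a : Fin n → ℂ) : Matrix (Fin n) (Fin n) ℂ :=
  of fun i j => if j = i + 1 then a i else 0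

/-- The truncated extension `Ã`, of size `n + 1`. -/
def line {n : ℕ} (a : Fin n → ℂ) : Matrix (Fin (n + 1)) (Fin (n + 1)) ℂ :=
  of fun i j => if h : (i : ℕ) + 1 = (j : ℕ) then a ⟨i, by omega⟩ else 0

/-- The number of entries of `f` different from `1`. -/
noncomputable def cost {n : ℕ} (f : Fin n → ℝ) : ℕ := (Finset.univ.filter fun i => f i ≠ 1).card

/-- The number of cyclic ascents of the moduli. -/
noncomputable def asc {n : ℕ} [NeZero n] (a : Fin n → ℂ) : ℕ :=
  (Finset.univ.filter fun i : Fin n => ‖a (i - 1)‖ < ‖a i‖).card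

/-- The number of cyclic descents of the moduli. -/
noncomputable def desc {n : ℕ} [NeZero n] (a : Fin n → ℂ) : ℕ :=
  (Finset.univ.filter fun i : Fin n => ‖a i‖ < ‖a (i - 1)‖).card

open Classical in
/-- `1` if some cyclic ascent of the moduli is preceded by three equal nonzero moduli, `0` if not. -/
noncomputable def bonus {n : ℕ} [NeZero n] (a : Fin n → ℂ) : ℕ :=
  if ∃ p : Fin n, ‖a (p - 1)‖ < ‖a p‖ ∧ a (p - 1) ≠ 0 ∧ ‖a (p - 1 - 1)‖ = ‖a (p - 1)‖ ∧
    ‖a (p - 1 - 1 - 1)‖ = ‖a (p - 1 - 1)‖ then 1 else 0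

open Classical in
/-- `1` if some cyclic descent of the moduli leads to three equal nonzero moduli, `0` if not. -/
noncomputable def bonus' {n : ℕ} [NeZero n] (a : Fin n → ℂ) : ℕ :=
  if ∃ q : Fin n, ‖a q‖ < ‖a (q - 1)‖ ∧ a q ≠ 0 ∧ ‖a (q + 1)‖ = ‖a q‖ ∧
    ‖a (q + 1 + 1)‖ = ‖a (q + 1)‖ then 1 else 0

theorem nd_spec {m : ℕ} (M : Matrix (Fin m) (Fin m) ℂ) : HasNC M (nd M) :=
  Helper495_ND.nd_spec M

theorem nd_le {m : ℕ} {M : Matrix (Fin m) (Fin m) ℂ} {k : ℕ} (h : HasNC M k) : nd M ≤ k :=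
  Nat.sInf_le h

theorem upper {n : ℕ} [NeZero n] (hn : 4 ≤ n) (a : Fin n → ℂ) (h : ℝ) (θ x : Fin n → ℝ) (hh : 0 ≤ h)
    (hθ : ∀ i, 0 ≤ θ i ∧ θ i ≤ 1) (hx : ∀ i, 0 ≤ x i ∧ x i ≤ 1)
    (ha : ∀ i, ‖a i‖ = h * θ i * θ (i + 1) * x i) :
    nd (line a) ≤ cost θ + cost x + 1 :=
  nd_le (Helper495_ND.upper (by omega) a h hh θ x hθ hx ha)

theorem lower {n : ℕ} [NeZero n] (a : Fin n → ℂ) :
    max (asc a + bonus a) (desc a + bonus' a) ≤ nd (cyc a) := by
  apply max_le
  · unfold bonus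
    split_ifs with h
    · obtain ⟨p, h0, h1, h2, h3⟩ := h
      exact Helper495_ND.lower_asc' a (nd_spec (cyc a)) p h0 h1 h2 h3
    · exact Helper495_ND.lower_asc a (nd_spec (cyc a))
  · unfold bonus'
    split_ifs with h
    · obtain ⟨q, h0, h1, h2, h3⟩ := h
      exact Helper495_ND.lower_desc' a (nd_spec (cyc a)) q h0 h1 h2 h3
    · exact Helper495_ND.lower_desc a (nd_spec (cyc a))

theorem general {n : ℕ} [NeZero n] (hn : 4 ≤ n) (a : Fin n → ℂ) (h : ℝ) (θ x : Fin n → ℝ) (hh : 0 ≤ h)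
    (hθ : ∀ i, 0 ≤ θ i ∧ θ i ≤ 1) (hx : ∀ i, 0 ≤ x i ∧ x i ≤ 1)
    (ha : ∀ i, ‖a i‖ = h * θ i * θ (i + 1) * x i) (hF : cost θ + cost x ≤ max (asc a + bonus a) (desc a + bonus' a)) :
    nd (line a) ≤ nd (cyc a) + 1 := by
  have h1 := upper hn a h θ x hh hθ hx ha
  have h2 := lower a
  omega

theorem family {n : ℕ} [NeZero n] (hn : 4 ≤ n) (a : Fin n → ℂ) (h : ℝ) (h1 : ∀ i, ‖a i‖ ≤ h)
    (h3 : ∀ i, ‖a i‖ < h → ¬ (‖a (i + 1)‖ = ‖a i‖ ∧ ‖a (i + 1 + 1)‖ = ‖a i‖))
    (h4 : (∀ i, ‖a i‖ < h → ‖a (i + 1)‖ < h → ‖a (i + 1)‖ ≤ ‖a i‖) ∨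
      (∀ i, ‖a i‖ < h → ‖a (i + 1)‖ < h → ‖a i‖ ≤ ‖a (i + 1)‖)) :
    nd (line a) ≤ nd (cyc a) + 1 := by
  classical
  have hh : 0 ≤ h := (norm_nonneg _).trans (h1 0)
  let θ : Fin n → ℝ := fun i => if ‖a i‖ < h ∧ ‖a (i - 1)‖ = ‖a i‖ then ‖a i‖ / h else 1
  let x : Fin n → ℝ := fun i =>
    if ‖a i‖ < h ∧ ‖a (i - 1)‖ ≠ ‖a i‖ ∧ ‖a (i + 1)‖ ≠ ‖a i‖ then ‖a i‖ / h else 1
  have hdiv : ∀ i, 0 ≤ ‖a i‖ / h ∧ ‖a i‖ / h ≤ 1 := fun i =>
    ⟨div_nonneg (norm_nonneg _) hh, div_le_one_of_le₀ (h1 i) hh⟩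
  have h3' : ∀ i, ‖a i‖ < h → ‖a (i - 1)‖ = ‖a i‖ → ‖a (i + 1)‖ ≠ ‖a i‖ := by
    intro i hi hp hq
    apply h3 (i - 1) (by rw [hp]; exact hi)
    rw [sub_add_cancel]
    exact ⟨hp.symm, by rw [hq, hp]⟩
  apply general hn a h θ x hh
  · intro i
    simp only [θ]
    split_ifs
    · exact hdiv i
    · norm_num
  · intro i
    simp only [x]
    split_ifs
    · exact hdiv i
    · norm_num
  · intro i
    have hpos : ‖a i‖ < h → h ≠ 0 := fun hi => (lt_of_le_of_lt (norm_nonneg _) hi).ne'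
    simp only [θ, x, add_sub_cancel_right]
    by_cases hi : ‖a i‖ < h
    · have h0 := hpos hi
      by_cases hp : ‖a (i - 1)‖ = ‖a i‖
      · have hq := h3' i hi hp
        rw [if_pos ⟨hi, hp⟩, if_neg (fun hc => hq hc.2.symm), if_neg (fun hc => hc.2.1 hp)]
        field_simp
      · rw [if_neg (c := ‖a i‖ < h ∧ ‖a (i - 1)‖ = ‖a i‖) (fun hc => hp hc.2)]
        by_cases hq : ‖a (i + 1)‖ = ‖a i‖
        · rw [if_pos ⟨by rw [hq]; exact hi, hq.symm⟩, if_neg (fun hc => hc.2.2 hq), hq]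
          field_simp
        · rw [if_neg (fun hc => hq hc.2.symm), if_pos ⟨hi, hp, hq⟩]
          field_simp
    · have he : ‖a i‖ = h := le_antisymm (h1 i) (not_lt.mp hi)
      have c1 : ¬ (‖a i‖ < h ∧ ‖a (i - 1)‖ = ‖a i‖) := fun hc => hi hc.1
      have c2 : ¬ (‖a (i + 1)‖ < h ∧ ‖a i‖ = ‖a (i + 1)‖) := by
        rintro ⟨hc, hd⟩
        rw [← hd, he] at hc
        exact lt_irrefl _ hc
      have c3 : ¬ (‖a i‖ < h ∧ ‖a (i - 1)‖ ≠ ‖a i‖ ∧ ‖a (i + 1)‖ ≠ ‖a i‖) := fun hc => hi hc.1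
      rw [if_neg c1, if_neg c2, if_neg c3, he]
      ring
  · have hθs : ∀ i, θ i ≠ 1 → ‖a i‖ < h ∧ ‖a (i - 1)‖ = ‖a i‖ := by
      intro i hi
      by_contra hc
      exact hi (by simp only [θ]; rw [if_neg hc])
    have hxs : ∀ i, x i ≠ 1 → ‖a i‖ < h ∧ ‖a (i - 1)‖ ≠ ‖a i‖ ∧ ‖a (i + 1)‖ ≠ ‖a i‖ := by
      intro i hi
      by_contra hc
      exact hi (by simp only [x]; rw [if_neg hc])
    rcases h4 with h4 | h4
    · apply le_max_of_le_right
      apply le_trans _ (Nat.le_add_right _ _)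
      unfold cost desc
      rw [← Finset.card_image_of_injective (Finset.univ.filter fun i => θ i ≠ 1)
        (sub_left_injective (b := (1 : Fin n))), ← Finset.card_union_of_disjoint]
      · apply Finset.card_le_card
        intro i hi
        simp only [Finset.mem_union, Finset.mem_image, Finset.mem_filter, Finset.mem_univ, true_and]
          at hi ⊢
        have hgen : ‖a i‖ < h → ‖a (i - 1)‖ ≠ ‖a i‖ → ‖a i‖ < ‖a (i - 1)‖ := by
          intro hi hne
          by_cases hp : ‖a (i - 1)‖ < h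
          · have := h4 (i - 1) hp (by rw [sub_add_cancel]; exact hi)
            rw [sub_add_cancel] at this
            exact lt_of_le_of_ne this (Ne.symm hne)
          · exact lt_of_lt_of_le hi (not_lt.mp hp)
        rcases hi with ⟨j, hj, rfl⟩ | hi
        · obtain ⟨hj1, hj2⟩ := hθs j hj
          apply hgen (by rw [hj2]; exact hj1)
          intro hc
          apply h3' (j - 1) (by rw [hj2]; exact hj1) hc
          rw [sub_add_cancel]
          exact hj2.symm
        · obtain ⟨hj1, hj2, hj3⟩ := hxs i hi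
          exact hgen hj1 hj2
      · rw [Finset.disjoint_left]
        intro i hi hi'
        simp only [Finset.mem_image, Finset.mem_filter, Finset.mem_univ, true_and] at hi hi'
        obtain ⟨j, hj, rfl⟩ := hi
        obtain ⟨hj1, hj2⟩ := hθs j hj
        obtain ⟨_, _, hj3⟩ := hxs _ hi'
        rw [sub_add_cancel] at hj3
        exact hj3 hj2.symm
    · apply le_max_of_le_left
      apply le_trans _ (Nat.le_add_right _ _)
      unfold cost asc
      rw [← Finset.card_image_of_injective (Finset.univ.filter fun i => x i ≠ 1)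
        (add_left_injective (1 : Fin n)),
        ← Finset.card_image_of_injective (Finset.univ.filter fun i => θ i ≠ 1)
        (add_left_injective (1 : Fin n)), ← Finset.card_union_of_disjoint]
      · apply Finset.card_le_card
        intro i hi
        simp only [Finset.mem_union, Finset.mem_image, Finset.mem_filter, Finset.mem_univ, true_and]
          at hi ⊢
        have hgen : ∀ j, ‖a j‖ < h → ‖a (j + 1)‖ ≠ ‖a j‖ → ‖a j‖ < ‖a (j + 1)‖ := by
          intro j hi hne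
          by_cases hp : ‖a (j + 1)‖ < h
          · exact lt_of_le_of_ne (h4 j hi hp) (Ne.symm hne)
          · exact lt_of_lt_of_le hi (not_lt.mp hp)
        rcases hi with ⟨j, hj, rfl⟩ | ⟨j, hj, rfl⟩
        · obtain ⟨hj1, hj2⟩ := hθs j hj
          rw [add_sub_cancel_right]
          exact hgen j hj1 (h3' j hj1 hj2)
        · obtain ⟨hj1, hj2, hj3⟩ := hxs j hj
          rw [add_sub_cancel_right]
          exact hgen j hj1 hj3
      · rw [Finset.disjoint_left]
        intro i hi hi'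
        simp only [Finset.mem_image, Finset.mem_filter, Finset.mem_univ, true_and] at hi hi'
        obtain ⟨j, hj, rfl⟩ := hi
        obtain ⟨l, hl, hlj⟩ := hi'
        have : l = j := add_right_cancel hlj
        subst this
        exact (hxs _ hl).2.1 (hθs _ hj).2

/-- Let `n ≥ 4` and `|a_i| = h θ_i θ_{i+1} x_i` (indices modulo `n`) with `θ_i, x_i ∈ [0,1]`, such
that the number of `θ_i ≠ 1` plus the number of `x_i ≠ 1` is at most the number of cyclic ascents of
the sequence of moduli, plus one if some ascent is preceded by three equal nonzero moduli, or at most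
the number of cyclic descents, plus one if some descent leads to three equal nonzero moduli. Then
`nd(Ã) ≤ nd(A) + 1`. (Theorem `family` above gives
an explicit class of weights with this property: within the runs of weights of non-maximal modulus
the moduli are weakly decreasing, or all weakly increasing, and no three consecutive ones agree.) -/
theorem result (n : ℕ) [NeZero n] (hn : 4 ≤ n) (a : Fin n → ℂ) (h : ℝ) (θ x : Fin n → ℝ) (hh : 0 ≤ h)
    (hθ : ∀ i, 0 ≤ θ i ∧ θ i ≤ 1) (hx : ∀ i, 0 ≤ x i ∧ x i ≤ 1)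
    (ha : ∀ i, ‖a i‖ = h * θ i * θ (i + 1) * x i)
    (hF : cost θ + cost x ≤ max (asc a + bonus a) (desc a + bonus' a)) :
    nd (line a) ≤ nd (cyc a) + 1 :=
  general hn a h θ x hh hθ hx ha hF

end Pool.Agent.Results.MP_1a1084_an.FactoredWeights
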